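import Pool.Agent.H102R3.LHEnergy

set_option autoImplicit false

/-!
# MP_469b0e_pr, Q1: a transient graph of bounded degree without non-constant Lipschitz harmonic
functions
-/

namespace Pool.Agent.Results.MP_469b0e_pr.BoundedDegree

open SimpleGraph Finset Pool.H102.LH MeasureTheory Filter
open scoped ENNReal Topology

/-! ### Lipschitz harmonic functions are constant -/

theorem L_block (i s : ℕ) (hs : s < 2 ^ i) : L (2 ^ i - 1 + s) = i + 1 := by
  unfold L
  have h0 : 0 < 2 ^ i := by positivity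
  have : Nat.log 2 (2 ^ i - 1 + s + 1) = i := by
    rw [Nat.log_eq_iff (Or.inr ⟨by norm_num, by omega⟩)]
    constructor
    · omega
    · rw [pow_succ]; omega
  omega

theorem iter (f : LV → ℝ) (hf : ∀ v, lap LG f v = 0) (i t : ℕ) (ht : t * (i + 1) < 2 ^ i) :
    (1 + t / ((i:ℝ) + 1)) * EE f (2 ^ i - 1) ≤ EE f (2 ^ i - 1 + t * (i + 1)) := by
  induction t with
  | zero => simp
  | succ t ih =>
    have h1 : t * (i + 1) < 2 ^ i := lt_of_le_of_lt (Nat.mul_le_mul_right _ (Nat.le_succ t)) ht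
    have h2 := ih h1
    have h3 := growth f hf (2 ^ i - 1 + t * (i + 1)) (i + 1) (fun r hr => by
      rw [add_assoc]
      apply L_block
      have : (t + 1) * (i + 1) = t * (i + 1) + (i + 1) := by ring
      omega) (by omega)
    have h4 : 2 ^ i - 1 + t * (i + 1) + (i + 1) = 2 ^ i - 1 + (t + 1) * (i + 1) := by ring
    rw [h4] at h3
    have h5 : EE f (2 ^ i - 1) ≤ EE f (2 ^ i - 1 + t * (i + 1)) := EE_mono f (by omega)
    push_cast at h3 ⊢
    have hi : (0:ℝ) < (i:ℝ) + 1 := by positivity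
    have h6 : EE f (2 ^ i - 1 + t * (i + 1)) / ((i:ℝ) + 1) ≤
        EE f (2 ^ i - 1 + (t + 1) * (i + 1)) - EE f (2 ^ i - 1 + t * (i + 1)) := by
      rw [div_le_iff₀ hi]; linarith
    have h7 : EE f (2 ^ i - 1) / ((i:ℝ) + 1) ≤ EE f (2 ^ i - 1 + t * (i + 1)) / ((i:ℝ) + 1) :=
      div_le_div_of_nonneg_right h5 hi.le
    have h8 : (1 + ((t:ℝ) + 1) / ((i:ℝ) + 1)) * EE f (2 ^ i - 1) =
        (1 + t / ((i:ℝ) + 1)) * EE f (2 ^ i - 1) + EE f (2 ^ i - 1) / ((i:ℝ) + 1) := by ring
    rw [h8]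
    linarith

theorem arith (i : ℕ) (hi : 12 ≤ i) : 15 * (i + 1) * (i + 1) < 2 ^ i := by
  induction i, hi using Nat.le_induction with
  | base => norm_num
  | succ n hn ih => rw [pow_succ]; nlinarith

theorem block_growth (f : LV → ℝ) (hf : ∀ v, lap LG f v = 0) (i : ℕ) (hi : 12 ≤ i) :
    16 * EE f (2 ^ i - 1) ≤ EE f (2 ^ (i + 1) - 1) := by
  have h1 := iter f hf i (15 * (i + 1)) (arith i hi)
  have h2 : (1 + ((15 * (i + 1) : ℕ) : ℝ) / ((i:ℝ) + 1)) = 16 := by
    push_cast
    have hi : (0:ℝ) < (i:ℝ) + 1 := by positivity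
    field_simp
    norm_num
  rw [h2] at h1
  refine h1.trans (EE_mono f ?_)
  have h3 := arith i hi
  rw [pow_succ]
  omega

theorem block_growth' (f : LV → ℝ) (hf : ∀ v, lap LG f v = 0) (i s : ℕ) (hi : 12 ≤ i) :
    16 ^ s * EE f (2 ^ i - 1) ≤ EE f (2 ^ (i + s) - 1) := by
  induction s with
  | zero => simp
  | succ s ih =>
    have := block_growth f hf (i + s) (by omega)
    rw [← add_assoc, pow_succ]
    linarith

theorem upper (f : LV → ℝ) (C : ℝ) (hC : ∀ v, ∀ w ∈ chF v, |f w - f v| ≤ C) (i : ℕ) :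
    EE f (2 ^ i - 1) ≤ 4 * C ^ 2 * 8 ^ i := by
  have h1 : ∀ k ∈ range (2 ^ i - 1), VE f k ≤ 4 * C ^ 2 * 4 ^ i := by
    intro k hk
    have hk' := Finset.mem_range.1 hk
    have ha : a k ≤ 4 ^ i := by
      unfold a
      apply Nat.pow_le_pow_right (by norm_num)
      unfold L
      have : Nat.log 2 (k + 1) < i := Nat.log_lt_of_lt_pow (by omega) (by omega)
      omega
    have h2 : ∀ v, ∀ w ∈ chF v, (f w - f v) ^ 2 ≤ C ^ 2 := fun v w hw => by
      have := hC v w hw
      rw [← sq_abs]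
      exact pow_le_pow_left₀ (abs_nonneg _) this 2
    calc VE f k ≤ ∑ v ∈ lv k, ∑ w ∈ chF v, C ^ 2 :=
          Finset.sum_le_sum fun v _ => Finset.sum_le_sum fun w hw => h2 v w hw
      _ = (a k : ℝ) * (4 * C ^ 2) := by
          rw [Finset.sum_congr rfl (fun v _ => by rw [Finset.sum_const, card_chF]), sum_lv,
            Finset.sum_const, card_range, nsmul_eq_mul, nsmul_eq_mul]
          norm_num
      _ ≤ (4 ^ i : ℝ) * (4 * C ^ 2) := by
          refine mul_le_mul_of_nonneg_right ?_ (by positivity)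
          exact_mod_cast ha
      _ = 4 * C ^ 2 * 4 ^ i := by ring
  calc EE f (2 ^ i - 1) ≤ ∑ k ∈ range (2 ^ i - 1), 4 * C ^ 2 * 4 ^ i := Finset.sum_le_sum h1
    _ = ((2 ^ i - 1 : ℕ) : ℝ) * (4 * C ^ 2 * 4 ^ i) := by
        rw [Finset.sum_const, card_range, nsmul_eq_mul]
    _ ≤ (2 ^ i : ℝ) * (4 * C ^ 2 * 4 ^ i) := by
        refine mul_le_mul_of_nonneg_right ?_ (by positivity)
        have : 2 ^ i - 1 ≤ 2 ^ i := Nat.sub_le _ _
        exact_mod_cast this
    _ = 4 * C ^ 2 * 8 ^ i := by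
        have : (8:ℝ) ^ i = 2 ^ i * 4 ^ i := by rw [← mul_pow]; norm_num
        rw [this]; ring

theorem const_of_lipschitz (f : LV → ℝ) (hf : ∀ v, lap LG f v = 0) (C : ℝ)
    (hC : ∀ v, ∀ w ∈ chF v, |f w - f v| ≤ C) (x y : LV) : f x = f y := by
  have hzero : ∀ i, 12 ≤ i → EE f (2 ^ i - 1) = 0 := by
    intro i hi
    have hnn : 0 ≤ EE f (2 ^ i - 1) := Finset.sum_nonneg fun _ _ => VE_nonneg f _
    by_contra hne
    have hpos : 0 < EE f (2 ^ i - 1) := lt_of_le_of_ne hnn (Ne.symm hne)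
    obtain ⟨s, hs⟩ := pow_unbounded_of_one_lt (4 * C ^ 2 * 8 ^ i / EE f (2 ^ i - 1))
      (show (1:ℝ) < 2 by norm_num)
    rw [div_lt_iff₀ hpos] at hs
    have h1 := block_growth' f hf i s hi
    have h2 := upper f C hC (i + s)
    have h3 : (16:ℝ) ^ s = 2 ^ s * 8 ^ s := by rw [← mul_pow]; norm_num
    rw [h3] at h1
    have h8 : (8:ℝ) ^ (i + s) = 8 ^ i * 8 ^ s := pow_add _ _ _
    rw [h8] at h2
    have h4 : (0:ℝ) < 8 ^ s := by positivity
    have h5 : 8 ^ s * (4 * C ^ 2 * 8 ^ i) < 8 ^ s * (2 ^ s * EE f (2 ^ i - 1)) :=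
      mul_lt_mul_of_pos_left hs h4
    nlinarith
  have hV : ∀ k, VE f k = 0 := by
    intro k
    have h1 : VE f k ≤ EE f (2 ^ (k + 12) - 1) := by
      have h2 : k ∈ range (2 ^ (k + 12) - 1) := by
        rw [Finset.mem_range]
        have : k + 12 < 2 ^ (k + 12) := Nat.lt_two_pow_self
        omega
      exact Finset.single_le_sum (f := fun k => VE f k) (fun k _ => VE_nonneg f k) h2
    rw [hzero _ (by omega)] at h1
    exact le_antisymm h1 (VE_nonneg f k)
  have hch : ∀ v, ∀ w ∈ chF v, f w = f v := by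
    intro v w hw
    have h1 := hV v.1.1
    rw [VE, Finset.sum_eq_zero_iff_of_nonneg
      (fun _ _ => Finset.sum_nonneg fun _ _ => sq_nonneg _)] at h1
    have h2 := h1 v (mem_lv.2 rfl)
    rw [Finset.sum_eq_zero_iff_of_nonneg (fun _ _ => sq_nonneg _)] at h2
    have h3 := h2 w hw
    have := pow_eq_zero_iff (two_ne_zero) |>.1 h3
    linarith
  refine const_of_adj LG connected f (fun v w h => ?_) x y
  rcases h with h | h
  · exact (hch v w (mem_chF.2 h)).symm
  · exact hch w v (mem_chF.2 h)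

/-! ### transience -/

theorem sq_le_a (k : ℕ) : (k + 1) ^ 2 ≤ a k := by
  unfold a L
  have h1 : k + 1 ≤ 2 ^ (Nat.log 2 (k + 1) + 1) := (Nat.lt_pow_succ_log_self (by norm_num) _).le
  calc (k + 1) ^ 2 ≤ (2 ^ (Nat.log 2 (k + 1) + 1)) ^ 2 := Nat.pow_le_pow_left h1 2
    _ = 4 ^ (Nat.log 2 (k + 1) + 1) := by rw [← pow_mul, mul_comm, pow_mul]; norm_num

theorem summ : Summable fun k : ℕ => 1 / (a k : ℝ) := by
  have h1 : Summable fun k : ℕ => 1 / ((k:ℝ) + 1) ^ 2 := by
    have := (summable_nat_add_iff 1).2 (Real.summable_one_div_nat_pow.2 (show 1 < 2 by norm_num))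
    simpa using this
  refine Summable.of_nonneg_of_le (fun k => by positivity) (fun k => ?_) h1
  refine one_div_le_one_div_of_le (by positivity) ?_
  exact_mod_cast sq_le_a k

/-- radial Green function -/
noncomputable def u (k : ℕ) : ℝ := ∑' i : ℕ, 1 / (a (k + i) : ℝ)

theorem summ' (k : ℕ) : Summable fun i : ℕ => 1 / (a (k + i) : ℝ) := by
  have := (summable_nat_add_iff k).2 summ
  refine this.congr fun i => by rw [add_comm]

theorem u_rec (k : ℕ) : u k = 1 / (a k : ℝ) + u (k + 1) := by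
  unfold u
  rw [(summ' k).tsum_eq_zero_add]
  congr 1
  refine tsum_congr fun i => ?_
  congr 3
  ring

theorem u_pos (k : ℕ) : 0 < u k := by
  rw [u_rec]
  have h1 : 0 ≤ u (k + 1) := tsum_nonneg fun i => by positivity
  have h2 : (0:ℝ) < a k := by exact_mod_cast a_pos k
  positivity

theorem u_anti {j k : ℕ} (h : j ≤ k) : u k ≤ u j := by
  induction h with
  | refl => exact le_rfl
  | @step m _ ih =>
    refine le_trans ?_ ih
    rw [u_rec m]
    have : (0:ℝ) ≤ 1 / (a m : ℝ) := by positivity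
    linarith

theorem avg_le (y : LV) (g : LV → ℝ) (hg : ∀ v, 0 ≤ g v)
    (h : ∑ w ∈ LG.neighborFinset y, g w ≤ LG.degree y * g y) :
    (LG.degree y : ℝ≥0∞)⁻¹ * ∑ w ∈ LG.neighborFinset y, ENNReal.ofReal (g w) ≤
      ENNReal.ofReal (g y) := by
  have h0 : (LG.degree y : ℝ≥0∞) ≠ 0 := by exact_mod_cast (degree_pos' y).ne'
  have h1 : (LG.degree y : ℝ≥0∞) ≠ ∞ := ENNReal.natCast_ne_top _
  rw [← ENNReal.ofReal_sum_of_nonneg (fun w _ => hg w), mul_comm, ← div_eq_mul_inv,
    ENNReal.div_le_iff h0 h1, ← ENNReal.ofReal_natCast, ← ENNReal.ofReal_mul (hg y)]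
  exact ENNReal.ofReal_le_ofReal (by linarith)

theorem transient : IsTransient LG := by
  intro x
  refine ⟨exists_srw LG degree_pos' x, fun Ω _ P X hX => ?_⟩
  set U := u x.1.1 with hU
  have hU0 : 0 < U := u_pos _
  let g : LV → ℝ := fun v => min (u v.1.1) U / U
  have hg0 : ∀ v, 0 ≤ g v := fun v => div_nonneg (le_min (u_pos _).le hU0.le) hU0.le
  have hg1 : ∀ v, g v ≤ 1 := fun v => by
    show min (u v.1.1) U / U ≤ 1
    rw [div_le_one hU0]; exact min_le_right _ _
  have hgle : ∀ v : LV, v.1.1 ≤ x.1.1 → g v = 1 := fun v hv => by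
    show min (u v.1.1) U / U = 1
    rw [min_eq_right (u_anti hv), div_self hU0.ne']
  have hgge : ∀ v : LV, x.1.1 ≤ v.1.1 → g v = u v.1.1 / U := fun v hv => by
    show min (u v.1.1) U / U = _
    rw [min_eq_left (u_anti hv)]
  refine return_lt_one LG x P X hX (fun v => ENNReal.ofReal (g v)) ?_ (fun y hy => ?_) ?_
  · show ENNReal.ofReal (g x) = 1
    rw [hgle x le_rfl, ENNReal.ofReal_one]
  · refine avg_le y g hg0 ?_
    rcases le_or_gt y.1.1 x.1.1 with h | h
    · rw [hgle y h, mul_one]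
      calc ∑ w ∈ LG.neighborFinset y, g w ≤ ∑ w ∈ LG.neighborFinset y, (1:ℝ) :=
            Finset.sum_le_sum fun w _ => hg1 w
        _ = LG.degree y := by
            rw [Finset.sum_const, card_neighborFinset_eq_degree, nsmul_eq_mul, mul_one]
    · obtain ⟨k, hk⟩ : ∃ k, y.1.1 = k + 1 := ⟨y.1.1 - 1, by omega⟩
      rw [sum_nb, degree_eq, hgge y h.le, hk]
      have h1 : ∑ w ∈ chF y, g w = 4 * (u (k + 2) / U) := by
        have : ∀ w ∈ chF y, g w = u (k + 2) / U := by
          intro w hw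
          obtain ⟨c, _, rfl⟩ := mem_chF.1 hw
          rw [hgge (ch y c) (by rw [ch_level]; omega), ch_level, hk]
        rw [Finset.sum_congr rfl this, Finset.sum_const, card_chF, nsmul_eq_mul]
        norm_num
      have h2 : ∑ w ∈ paF y, g w = (paF y).card * (u k / U) := by
        have : ∀ w ∈ paF y, g w = u k / U := by
          intro w hw
          obtain ⟨c, _, hc⟩ := mem_chF.1 (mem_paF.1 hw)
          have h3 := congrArg (fun v : LV => v.1.1) hc
          simp only [ch_level] at h3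
          have h4 : w.1.1 = k := by omega
          rw [hgge w (by omega), h4]
        rw [Finset.sum_congr rfl this, Finset.sum_const, nsmul_eq_mul]
      rw [h1, h2]
      have h3 := card_paF y k hk
      have h3' : ((paF y).card : ℝ) * a (k + 1) ≤ 4 * a k := by exact_mod_cast h3
      have ha : (0:ℝ) < a k := by exact_mod_cast a_pos k
      have ha' : (0:ℝ) < a (k + 1) := by exact_mod_cast a_pos (k + 1)
      have h4 := u_rec k
      have h5 := u_rec (k + 1)
      have h6 : ((paF y).card : ℝ) * (1 / (a k : ℝ)) ≤ 4 * (1 / (a (k + 1) : ℝ)) := by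
        rw [mul_one_div, mul_one_div, div_le_div_iff₀ ha ha']
        exact h3'
      have h7 : 4 * u (k + 2) + ((paF y).card : ℝ) * u k ≤ (4 + ((paF y).card : ℝ)) * u (k + 1) := by
        rw [h4]
        have h8 : u (k + 2) = u (k + 1) - 1 / (a (k + 1) : ℝ) := by
          have : k + 1 + 1 = k + 2 := rfl
          rw [this] at h5; linarith
        rw [h8]
        nlinarith
      push_cast
      have h9 : 4 * (u (k + 2) / U) + ((paF y).card : ℝ) * (u k / U) =
          (4 * u (k + 2) + ((paF y).card : ℝ) * u k) / U := by ring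
      have h10 : (4 + ((paF y).card : ℝ)) * (u (k + 1) / U) =
          ((4 + ((paF y).card : ℝ)) * u (k + 1)) / U := by ring
      rw [h9, h10]
      exact div_le_div_of_nonneg_right h7 hU0.le
  · have h0 : (LG.degree x : ℝ≥0∞) ≠ 0 := by exact_mod_cast (degree_pos' x).ne'
    have h1 : (LG.degree x : ℝ≥0∞) ≠ ∞ := ENNReal.natCast_ne_top _
    rw [← ENNReal.ofReal_sum_of_nonneg (fun w _ => hg0 w), mul_comm, ← div_eq_mul_inv,
      ENNReal.div_lt_iff (Or.inl h0) (Or.inl h1), one_mul, ← ENNReal.ofReal_natCast]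
    have hc : ch x 0 ∈ LG.neighborFinset x := by
      rw [mem_neighborFinset]; exact adj_ch x (by norm_num)
    have h2 : ∑ w ∈ LG.neighborFinset x, g w < ∑ w ∈ LG.neighborFinset x, (1:ℝ) := by
      refine Finset.sum_lt_sum (fun w _ => hg1 w) ⟨_, hc, ?_⟩
      rw [hgge _ (by rw [ch_level]; omega), ch_level, div_lt_one hU0, hU, u_rec x.1.1]
      have : (0:ℝ) < 1 / a x.1.1 := by
        have : (0:ℝ) < a x.1.1 := by exact_mod_cast a_pos _
        positivity
      linarith
    rw [Finset.sum_const, card_neighborFinset_eq_degree, nsmul_eq_mul, mul_one] at h2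
    exact (ENNReal.ofReal_lt_ofReal_iff (by exact_mod_cast degree_pos' x)).2 h2

/-- **Q1 (Bader), answered in the negative, even for bounded degree.** There is a connected graph
with all degrees at most 8 on which simple random walk is transient and on which every Lipschitz
harmonic function is constant. -/
theorem result : ∃ (V : Type) (G : SimpleGraph V) (_ : G.LocallyFinite),
    G.Connected ∧ (∀ v, G.degree v ≤ 8) ∧ IsTransient G ∧
      ∀ f : V → ℝ, IsHarmonic G f → IsLipschitz G f → ∀ x y, f x = f y := by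
  refine ⟨LV, LG, inferInstance, connected, degree_le, transient, fun f hf hL x y => ?_⟩
  obtain ⟨C, hC⟩ := hL
  refine const_of_lipschitz f (fun v => (lap_zero_iff LG f v (degree_pos' v)).2 (hf v)) C
    (fun v w hw => ?_) x y
  have hadj : LG.Adj w v := by
    rw [SimpleGraph.adj_comm]; exact Or.inl (mem_chF.1 hw)
  have h1 := hC w v
  rw [SimpleGraph.dist_eq_one_iff_adj.2 hadj] at h1
  simpa using h1

end Pool.Agent.Results.MP_469b0e_pr.BoundedDegree
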