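import Pool.Agent.H102R3.LHBasic

set_option autoImplicit false

/-!
# MP_469b0e_pr, Q2: every graph with at least two ends carries a non-constant Lipschitz harmonic
function
-/

namespace Pool.Agent.Results.MP_469b0e_pr.TwoEnds

open SimpleGraph Finset Pool.H102.LH Filter Topology

variable {V : Type*} (G : SimpleGraph V) [G.LocallyFinite]

/-- increasing finite sets -/
noncomputable def Bs [DecidableEq V] (K : Finset V) : ℕ → Finset V
  | 0 => K
  | n + 1 => Bs K n ∪ (Bs K n).biUnion fun x => G.neighborFinset x

theorem Bs_mono [DecidableEq V] (K : Finset V) {m n : ℕ} (h : m ≤ n) : Bs G K m ⊆ Bs G K n := by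
  induction h with
  | refl => exact Finset.Subset.refl _
  | step _ ih => exact ih.trans Finset.subset_union_left

theorem Bs_nb [DecidableEq V] (K : Finset V) (n : ℕ) (x : V) (hx : x ∈ Bs G K n) :
    G.neighborFinset x ⊆ Bs G K (n + 1) :=
  (Finset.subset_biUnion_of_mem (fun x => G.neighborFinset x) hx).trans Finset.subset_union_right

theorem Bs_walk [DecidableEq V] (K : Finset V) {x y : V} (w : G.Walk x y) (n : ℕ)
    (hx : x ∈ Bs G K n) : y ∈ Bs G K (n + w.length) := by
  induction w generalizing n with
  | nil => simpa using hx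
  | cons hadj _ ih =>
    have := ih (n + 1) (Bs_nb G K n _ hx (by simpa using hadj))
    rw [Walk.length_cons]
    have h2 : ∀ a : ℕ, n + 1 + a = n + (a + 1) := fun a => by ring
    rwa [h2] at this

/-- the one-step construction: a function harmonic on `B`, with gradients at most one, and with unit
flux out of the component `C` -/
theorem step (hG : G.Connected) (K B : Finset V) (C : G.ComponentCompl (K : Set V))
    (hKB : K ⊆ B) (c : V) (hcC : c ∈ C) (hcB : c ∉ B) (d : V) (hdC : d ∉ C) (hdB : d ∉ B)
    (φ : V → ℝ) (hφ1 : ∀ x, x ∈ C → φ x = 1) (hφ0 : ∀ x, x ∉ C → φ x = 0)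
    (K' : Finset V) (hK : K ⊆ K') (hK' : ∀ x ∈ K, G.neighborFinset x ⊆ K') :
    ∃ g : V → ℝ, (∀ x ∈ B, lap G g x = 0) ∧ (∀ x y, G.Adj x y → |g x - g y| ≤ 1) ∧
      en G K' φ g = 1 := by
  classical
  obtain ⟨F, hF, hlap⟩ := dirichlet G hG B c hcB φ
  let B' : Finset V := (B ∪ B.biUnion fun x => G.neighborFinset x) ∪ K'
  have hB : B ⊆ B' := Finset.subset_union_left.trans Finset.subset_union_left
  have hN : ∀ x ∈ B, G.neighborFinset x ⊆ B' := fun x hx =>
    ((Finset.subset_biUnion_of_mem (fun x => G.neighborFinset x) hx).trans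
      Finset.subset_union_right).trans Finset.subset_union_left
  have hK'B' : K' ⊆ B' := Finset.subset_union_right
  have hphi : ∀ x y, G.Adj x y → x ∉ K → y ∉ K → φ x = φ y := by
    intro x y hxy hx hy
    by_cases h : x ∈ C
    · rw [hφ1 x h, hφ1 y (ComponentCompl.mem_of_adj x y h hy hxy)]
    · have : y ∉ C := fun h' => h (ComponentCompl.mem_of_adj y x h' hx hxy.symm)
      rw [hφ0 x h, hφ0 y this]
  have hFout : ∀ x y, G.Adj x y → x ∉ B → y ∉ B → F x = F y := by
    intro x y hxy hx hy
    rw [hF x hx, hF y hy]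
    exact hphi x y hxy (fun h => hx (hKB h)) (fun h => hy (hKB h))
  have hφ01 : ∀ x, φ x = 0 ∨ φ x = 1 := fun x => by
    by_cases h : x ∈ C
    · right; exact hφ1 x h
    · left; exact hφ0 x h
  -- bounds
  have hF1 : ∀ x, F x ≤ 1 := by
    let h : V → ℝ := fun x => max (F x - 1) 0
    have hh : ∀ x, x ∉ B → h x = 0 := by
      intro x hx
      rcases hφ01 x with h0 | h0 <;> simp [h, hF x hx, h0]
    have h1 : en G B' F h = 0 := by
      rw [en_eq G B B' F h hB hN hh, Finset.sum_eq_zero, mul_zero]
      intro x hx; rw [hlap x hx, mul_zero]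
    have h2 : en G B' h h ≤ en G B' F h := by
      refine Finset.sum_le_sum fun x _ => Finset.sum_le_sum fun y _ => ?_
      show (max (F x - 1) 0 - max (F y - 1) 0) * (max (F x - 1) 0 - max (F y - 1) 0)
        ≤ (F x - F y) * (max (F x - 1) 0 - max (F y - 1) 0)
      rcases le_total (F x - 1) 0 with a | a <;> rcases le_total (F y - 1) 0 with b | b <;>
        simp only [max_eq_left a, max_eq_right a, max_eq_left b, max_eq_right b] <;> nlinarith
    have h3 := zero_of_en G hG B B' h hB hN hh c hcB (h2.trans h1.le)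
    intro x
    have := le_max_left (F x - 1) 0
    have h4 : max (F x - 1) 0 = 0 := h3 x
    linarith
  have hF0 : ∀ x, 0 ≤ F x := by
    let h : V → ℝ := fun x => - max (- F x) 0
    have hh : ∀ x, x ∉ B → h x = 0 := by
      intro x hx
      rcases hφ01 x with h0 | h0 <;> simp [h, hF x hx, h0]
    have h1 : en G B' F h = 0 := by
      rw [en_eq G B B' F h hB hN hh, Finset.sum_eq_zero, mul_zero]
      intro x hx; rw [hlap x hx, mul_zero]
    have h2 : en G B' h h ≤ en G B' F h := by
      refine Finset.sum_le_sum fun x _ => Finset.sum_le_sum fun y _ => ?_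
      show (- max (- F x) 0 - - max (- F y) 0) * (- max (- F x) 0 - - max (- F y) 0)
        ≤ (F x - F y) * (- max (- F x) 0 - - max (- F y) 0)
      rcases le_total (- F x) 0 with a | a <;> rcases le_total (- F y) 0 with b | b <;>
        simp only [max_eq_left a, max_eq_right a, max_eq_left b, max_eq_right b] <;> nlinarith
    have h3 := zero_of_en G hG B B' h hB hN hh c hcB (h2.trans h1.le)
    intro x
    have := le_max_left (- F x) 0
    have h4 : - max (- F x) 0 = 0 := h3 x
    linarith
  -- energy
  have hpair : ∀ u : V → ℝ, (∀ x, x ∉ B → u x = φ x) → en G B' F u = en G B' F F := by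
    intro u hu
    have h1 : en G B' F (fun x => u x - F x) = 0 := by
      rw [en_eq G B B' F (fun x => u x - F x) hB hN
        (fun x hx => by show u x - F x = 0; rw [hu x hx, hF x hx, sub_self]),
        Finset.sum_eq_zero, mul_zero]
      intro x hx; rw [hlap x hx, mul_zero]
    have h2 : en G B' F (fun x => u x - F x) = en G B' F u - en G B' F F := by
      simp only [en, ← Finset.sum_sub_distrib]
      exact Finset.sum_congr rfl fun x _ => Finset.sum_congr rfl fun y _ => by ring
    linarith
  set E := en G B' F F with hE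
  have hE0 : 0 < E := by
    rcases (Finset.sum_nonneg fun x _ => Finset.sum_nonneg fun y _ => mul_self_nonneg _ :
      0 ≤ en G B' F F).lt_or_eq with h | h
    · exact h
    · exfalso
      have h1 : ∀ x ∈ B', ∀ y ∈ G.neighborFinset x, (F x - F y) * (F x - F y) = 0 := by
        intro x hx y hy
        have h3 := (Finset.sum_eq_zero_iff_of_nonneg
          (fun x _ => Finset.sum_nonneg fun y _ => mul_self_nonneg _)).1 h.symm x hx
        exact (Finset.sum_eq_zero_iff_of_nonneg (fun y _ => mul_self_nonneg _)).1 h3 y hy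
      have h4 : ∀ x y, G.Adj x y → F x = F y := by
        intro x y hxy
        by_cases hx : x ∈ B'
        · have := mul_self_eq_zero.1 (h1 x hx y (by simpa using hxy))
          linarith
        · have hy : y ∉ B := fun hy => hx (hN y hy (by simpa using hxy.symm))
          exact hFout x y hxy (fun h => hx (hB h)) hy
      have h5 := const_of_adj G hG F h4 c d
      rw [hF c hcB, hF d hdB, hφ1 c hcC, hφ0 d hdC] at h5
      exact one_ne_zero h5
  have hgrad : ∀ x y, G.Adj x y → F y < F x → F x - F y ≤ E := by
    intro x y hxy hlt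
    let u : V → ℝ := fun z => if F x ≤ F z then 1 else 0
    have hu : ∀ z, z ∉ B → u z = φ z := by
      intro z hz
      have hx1 := hF1 x
      have hy0 := hF0 y
      rcases hφ01 z with h0 | h0
      · have : ¬ (F x ≤ F z) := by rw [hF z hz, h0]; linarith
        simp [u, this, h0]
      · have : F x ≤ F z := by rw [hF z hz, h0]; exact hx1
        simp [u, this, h0]
    have hEu := hpair u hu
    have hx : x ∈ B' := by
      by_contra hx
      have hy : y ∉ B := fun hy => hx (hN y hy (by simpa using hxy.symm))
      exact hlt.ne' (hFout x y hxy (fun h => hx (hB h)) hy)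
    have hnn : ∀ a b, 0 ≤ (F a - F b) * (u a - u b) := by
      intro a b
      show 0 ≤ (F a - F b) * ((if F x ≤ F a then (1:ℝ) else 0) - (if F x ≤ F b then (1:ℝ) else 0))
      split_ifs <;> nlinarith
    have h1 : (F x - F y) * (u x - u y) ≤ en G B' F u := by
      have h2 : (F x - F y) * (u x - u y) ≤ ∑ b ∈ G.neighborFinset x, (F x - F b) * (u x - u b) :=
        Finset.single_le_sum (f := fun b => (F x - F b) * (u x - u b)) (fun b _ => hnn x b)
          (by simpa using hxy)
      exact h2.trans (Finset.single_le_sum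
        (f := fun a => ∑ b ∈ G.neighborFinset a, (F a - F b) * (u a - u b))
        (fun a _ => Finset.sum_nonneg fun b _ => hnn a b) hx)
    have h3 : u x = 1 := by simp [u]
    have h4 : u y = 0 := by simp [u, hlt]
    rw [h3, h4, hEu] at h1
    linarith
  refine ⟨fun x => F x / E, fun x hx => ?_, fun x y hxy => ?_, ?_⟩
  · have : lap G (fun x => F x / E) x = lap G F x / E := by
      simp only [lap, Finset.sum_div]
      exact Finset.sum_congr rfl fun y _ => by ring
    rw [this, hlap x hx, zero_div]
  · show |F x / E - F y / E| ≤ 1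
    rw [← sub_div, abs_div, abs_of_pos hE0, div_le_one hE0]
    rcases lt_trichotomy (F x) (F y) with h | h | h
    · rw [abs_of_neg (by linarith)]
      have := hgrad y x hxy.symm h
      linarith
    · rw [h, sub_self, abs_zero]; exact hE0.le
    · rw [abs_of_pos (by linarith)]
      exact hgrad x y hxy h
  · have h1 : en G K' φ (fun x => F x / E) = en G B' F φ / E := by
      rw [en, en, Finset.sum_div]
      rw [Finset.sum_subset hK'B']
      · refine Finset.sum_congr rfl fun x _ => ?_
        rw [Finset.sum_div]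
        exact Finset.sum_congr rfl fun y _ => by ring
      · intro x _ hx
        refine Finset.sum_eq_zero fun y hy => ?_
        have hxy : G.Adj x y := by simpa using hy
        have : y ∉ K := fun h => hx (hK' y h (by simpa using hxy.symm))
        rw [hphi x y hxy (fun h => hx (hK h)) this, sub_self, zero_mul]
    rw [h1, hpair φ (fun x _ => rfl), div_self hE0.ne']

/-- **Q2 (Bader), answered in the affirmative.** Every connected locally finite graph with at least
two ends admits a non-constant Lipschitz harmonic function. -/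
theorem result {V : Type*} (G : SimpleGraph V) [G.LocallyFinite] (hG : G.Connected)
    (hends : 2 ≤ numEnds G) :
    ∃ f : V → ℝ, IsHarmonic G f ∧ IsLipschitz G f ∧ ∃ x y, f x ≠ f y := by
  classical
  obtain ⟨K, hK⟩ : ∃ K : Finset V,
      1 < {C : G.ComponentCompl (K : Set V) | C.supp.Infinite}.encard := by
    have h1 : (1 : ℕ∞) < numEnds G := lt_of_lt_of_le (by norm_num) hends
    exact lt_iSup_iff.1 h1
  obtain ⟨C, D, hC, hD, hCD⟩ := Set.one_lt_encard_iff.1 hK
  have hdisj : ∀ x, x ∈ D → x ∉ C := by
    intro x hx hx'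
    exact Set.disjoint_left.1 (ComponentCompl.pairwise_disjoint hCD) hx' hx
  let φ : V → ℝ := fun x => if x ∈ C then 1 else 0
  have hφ1 : ∀ x, x ∈ C → φ x = 1 := fun x hx => if_pos hx
  have hφ0 : ∀ x, x ∉ C → φ x = 0 := fun x hx => if_neg hx
  obtain ⟨o⟩ := hG.nonempty
  -- the limit point
  let K1 : Finset V := insert o K
  let K' := Bs G K1 1
  have hKK1 : K ⊆ K1 := Finset.subset_insert _ _
  have hstep : ∀ n : ℕ, ∃ g : V → ℝ, (∀ x ∈ Bs G K1 n, lap G g x = 0) ∧
      (∀ x y, G.Adj x y → |g x - g y| ≤ 1) ∧ en G K' φ g = 1 := by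
    intro n
    obtain ⟨c, hc, hcB⟩ := Set.Infinite.exists_notMem_finset hC (Bs G K1 n)
    obtain ⟨d, hd, hdB⟩ := Set.Infinite.exists_notMem_finset hD (Bs G K1 n)
    exact step G hG K (Bs G K1 n) C (hKK1.trans (Bs_mono G K1 (Nat.zero_le n))) c hc hcB d
      (hdisj d hd) hdB φ hφ1 hφ0 K' (hKK1.trans (Bs_mono G K1 (Nat.zero_le 1)))
      (fun x hx => Bs_nb G K1 0 x (hKK1 hx))
  choose g hgl hgg hge using hstep
  have hwalk : ∀ n x y (w : G.Walk x y), |g n x - g n y| ≤ w.length := by
    intro n x y w
    induction w with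
    | nil => simp
    | cons hadj w ih =>
      rw [Walk.length_cons]
      push_cast
      have := hgg n _ _ hadj
      have h3 := abs_sub_le (g n _) (g n _) (g n _) |>.trans (add_le_add this ih)
      linarith
  have hlim : ∀ x, ∃ a : ℝ, Tendsto (fun n => g n x - g n o) (hyperfilter ℕ : Filter ℕ) (𝓝 a) := by
    intro x
    obtain ⟨w⟩ := hG.preconnected x o
    have h1 : ∀ n, g n x - g n o ∈ Set.Icc (-(w.length : ℝ)) w.length := fun n =>
      abs_le.1 (hwalk n x o w)
    obtain ⟨a, -, ha⟩ := isCompact_Icc.ultrafilter_le_nhds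
      (Ultrafilter.map (fun n => g n x - g n o) (hyperfilter ℕ))
      (by
        rw [le_principal_iff]
        exact Filter.mem_map.2 (Filter.univ_mem' h1))
    exact ⟨a, ha⟩
  choose f hf using hlim
  have hdiff : ∀ x y, Tendsto (fun n => g n x - g n y) (hyperfilter ℕ : Filter ℕ) (𝓝 (f x - f y)) := by
    intro x y
    refine ((hf x).sub (hf y)).congr fun n => ?_
    ring
  have hadj1 : ∀ x y, G.Adj x y → |f x - f y| ≤ 1 := fun x y hxy =>
    le_of_tendsto (hdiff x y).abs (Filter.univ_mem' fun n => hgg n x y hxy)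
  have hlapf : ∀ x, lap G f x = 0 := by
    intro x
    have h1 : Tendsto (fun n => lap G (g n) x) (hyperfilter ℕ : Filter ℕ) (𝓝 (lap G f x)) :=
      tendsto_finsetSum _ fun y _ => hdiff x y
    have h2 : Tendsto (fun n => lap G (g n) x) (hyperfilter ℕ : Filter ℕ) (𝓝 0) := by
      refine tendsto_const_nhds.congr' ?_
      obtain ⟨w⟩ := hG.preconnected o x
      have h3 : ∀ᶠ n in (hyperfilter ℕ : Filter ℕ), w.length ≤ n := by
        have : (hyperfilter ℕ : Filter ℕ) ≤ atTop := by
          rw [← Nat.cofinite_eq_atTop]; exact hyperfilter_le_cofinite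
        exact this (eventually_ge_atTop _)
      filter_upwards [h3] with n hn
      have h4 : x ∈ Bs G K1 (0 + w.length) :=
        Bs_walk G K1 w 0 (Finset.mem_insert_self _ _)
      rw [zero_add] at h4
      exact (hgl n x (Bs_mono G K1 hn h4)).symm
    exact tendsto_nhds_unique h1 h2
  have henf : en G K' φ f = 1 := by
    have h1 : Tendsto (fun n => en G K' φ (g n)) (hyperfilter ℕ : Filter ℕ) (𝓝 (en G K' φ f)) :=
      tendsto_finsetSum _ fun x _ => tendsto_finsetSum _ fun y _ => (hdiff x y).const_mul _
    have h2 : Tendsto (fun n => en G K' φ (g n)) (hyperfilter ℕ : Filter ℕ) (𝓝 1) :=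
      tendsto_const_nhds.congr fun n => (hge n).symm
    exact tendsto_nhds_unique h1 h2
  have hdeg : ∀ x, 0 < G.degree x := by
    intro x
    rw [SimpleGraph.degree_pos_iff_exists_adj]
    obtain ⟨c, hc, hcx⟩ := Set.Infinite.exists_notMem_finset hC {x}
    obtain ⟨w⟩ := hG.preconnected x c
    cases w with
    | nil => simp at hcx
    | cons h _ => exact ⟨_, h⟩
  refine ⟨f, fun x => (lap_zero_iff G f x (hdeg x)).1 (hlapf x), ⟨1, fun x y => ?_⟩, ?_⟩
  · obtain ⟨w, hw⟩ := hG.exists_walk_length_eq_dist x y
    rw [one_mul, ← hw]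
    clear hw
    induction w with
    | nil => simp
    | cons hadj w ih =>
      rw [Walk.length_cons]
      push_cast
      have := hadj1 _ _ hadj
      have h3 := abs_sub_le (f _) (f _) (f _) |>.trans (add_le_add this ih)
      linarith
  · by_contra hcon
    push Not at hcon
    have : en G K' φ f = 0 := by
      refine Finset.sum_eq_zero fun x _ => Finset.sum_eq_zero fun y _ => ?_
      rw [hcon x y, sub_self, mul_zero]
    rw [this] at henf
    exact zero_ne_one henf

end Pool.Agent.Results.MP_469b0e_pr.TwoEnds
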